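import Mathlib
import Pool.Agent.H228R3.SapFactor

set_option autoImplicit false

/-!
# A zero-nonzero pattern which is not spectrally arbitrary, but whose direct sum with itself is
-/

namespace Pool.Agent.Results.MP_1020fe_co.SumWithItself

open Polynomial Matrix Pool.Agent.H228R3.Sap

/-- The zero-nonzero pattern `P` (`true` marks the nonzero entries) is spectrally arbitrary: every
monic real polynomial of degree the order of `P` is the characteristic polynomial of a real matrix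
whose nonzero entries are exactly those marked by `P`. -/
def SpecArb {ι : Type} [Fintype ι] [DecidableEq ι] (P : Matrix ι ι Bool) : Prop :=
  ∀ f : ℝ[X], f.Monic → f.natDegree = Fintype.card ι →
    ∃ A : Matrix ι ι ℝ, (∀ i j, A i j ≠ 0 ↔ P i j = true) ∧ A.charpoly = f

/-- The direct sum of two zero-nonzero patterns. -/
def dsum {ι κ : Type} (P : Matrix ι ι Bool) (Q : Matrix κ κ Bool) :
    Matrix (ι ⊕ κ) (ι ⊕ κ) Bool
  | Sum.inl i, Sum.inl j => P i j
  | Sum.inr i, Sum.inr j => Q i j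
  | _, _ => false

theorem real_dsum {ι κ : Type} {P : Matrix ι ι Bool} {Q : Matrix κ κ Bool} {A : Matrix ι ι ℝ}
    {B : Matrix κ κ ℝ} (hA : ∀ i j, A i j ≠ 0 ↔ P i j = true)
    (hB : ∀ i j, B i j ≠ 0 ↔ Q i j = true) :
    ∀ i j, Matrix.fromBlocks A 0 0 B i j ≠ 0 ↔ dsum P Q i j = true := by
  intro i j
  rcases i with i | i <;> rcases j with j | j
  · exact hA i j
  · exact ⟨fun h => absurd rfl h, fun h => Bool.noConfusion h⟩
  · exact ⟨fun h => absurd rfl h, fun h => Bool.noConfusion h⟩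
  · exact hB i j

theorem dsum_real {ι κ : Type} {P : Matrix ι ι Bool} {Q : Matrix κ κ Bool}
    {M : Matrix (ι ⊕ κ) (ι ⊕ κ) ℝ} (hM : ∀ i j, M i j ≠ 0 ↔ dsum P Q i j = true) :
    ∃ (A : Matrix ι ι ℝ) (B : Matrix κ κ ℝ), (∀ i j, A i j ≠ 0 ↔ P i j = true) ∧
      (∀ i j, B i j ≠ 0 ↔ Q i j = true) ∧ M = Matrix.fromBlocks A 0 0 B := by
  refine ⟨M.toBlocks₁₁, M.toBlocks₂₂, fun i j => hM (Sum.inl i) (Sum.inl j),
    fun i j => hM (Sum.inr i) (Sum.inr j), ?_⟩
  ext i j
  rcases i with i | i <;> rcases j with j | j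
  · rfl
  · simp only [Matrix.fromBlocks_apply₁₂, Matrix.zero_apply]
    by_contra h
    have := (hM (Sum.inl i) (Sum.inr j)).1 h
    exact Bool.noConfusion this
  · simp only [Matrix.fromBlocks_apply₂₁, Matrix.zero_apply]
    by_contra h
    have := (hM (Sum.inr i) (Sum.inl j)).1 h
    exact Bool.noConfusion this
  · rfl

theorem specArb_submatrix {ι κ : Type} [Fintype ι] [DecidableEq ι] [Fintype κ] [DecidableEq κ]
    (e : κ ≃ ι) (P : Matrix ι ι Bool) : SpecArb (P.submatrix e e) ↔ SpecArb P := by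
  constructor
  · intro h f hf hd
    obtain ⟨A, hA, hc⟩ := h f hf (by rw [hd, Fintype.card_congr e])
    refine ⟨A.submatrix e.symm e.symm, ?_, ?_⟩
    · intro i j
      have := hA (e.symm i) (e.symm j)
      simpa using this
    · rw [← hc, ← Matrix.charpoly_reindex e A, Matrix.reindex_apply]
  · intro h f hf hd
    obtain ⟨A, hA, hc⟩ := h f hf (by rw [hd, Fintype.card_congr e])
    refine ⟨A.submatrix e e, ?_, ?_⟩
    · intro i j
      exact hA (e i) (e j)
    · rw [← hc, ← Matrix.charpoly_reindex e.symm A, Matrix.reindex_apply]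
      rfl

/-- `k` full diagonal blocks of order two. -/
def blk (k : ℕ) : Matrix (Fin 2 × Fin k) (Fin 2 × Fin k) Bool := fun x y => decide (x.2 = y.2)

/-- The pattern `z6` of order six together with `k` full blocks of order two. -/
def T (k : ℕ) : Matrix (Fin 6 ⊕ (Fin 2 × Fin k)) (Fin 6 ⊕ (Fin 2 × Fin k)) Bool :=
  dsum z6 (blk k)

/-- Every monic polynomial of degree `2 * k` is realized by `k` full blocks of order two. -/
theorem real_blk {k : ℕ} {h : ℝ[X]} (hh : IsMonicOfDegree h (2 * k)) :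
    ∃ B : Matrix (Fin 2 × Fin k) (Fin 2 × Fin k) ℝ,
      (∀ i j, B i j ≠ 0 ↔ blk k i j = true) ∧ B.charpoly = h := by
  obtain ⟨u, v, rfl⟩ := exists_quads k h hh
  choose B hB hBc using fun i : Fin k => exists_two (u i) (v i)
  refine ⟨Matrix.blockDiagonal B, ?_, ?_⟩
  · intro x y
    simp only [Matrix.blockDiagonal_apply, blk, decide_eq_true_eq]
    by_cases hxy : x.2 = y.2
    · rw [if_pos hxy]
      exact ⟨fun _ => hxy, fun _ => hB _ _ _⟩
    · rw [if_neg hxy]
      exact ⟨fun h => absurd rfl h, fun h => absurd h hxy⟩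
  · rw [charpoly_blockDiagonal, Finset.prod_congr rfl fun i _ => hBc i]

theorem real6_monic {g : ℝ[X]} (hg : Real6 g) : IsMonicOfDegree g 6 := by
  obtain ⟨A, _, rfl⟩ := hg
  exact ⟨by rw [Matrix.charpoly_natDegree_eq_dim, Fintype.card_fin], Matrix.charpoly_monic A⟩

/-- Every monic polynomial of degree `6 + 2 * k` has a factor realized by `z6`. -/
def HasFac (k : ℕ) : Prop := ∀ f : ℝ[X], IsMonicOfDegree f (6 + 2 * k) →
  ∃ g h : ℝ[X], Real6 g ∧ IsMonicOfDegree h (2 * k) ∧ f = g * h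

theorem card_T (k : ℕ) : Fintype.card (Fin 6 ⊕ (Fin 2 × Fin k)) = 6 + 2 * k := by
  simp

theorem specArb_T (k : ℕ) : SpecArb (T k) ↔ HasFac k := by
  constructor
  · intro h f hf
    obtain ⟨M, hM, hc⟩ := h f hf.monic (by rw [card_T, hf.natDegree_eq])
    obtain ⟨A, B, hA, hB, rfl⟩ := dsum_real hM
    rw [Matrix.charpoly_fromBlocks_zero₁₂] at hc
    refine ⟨A.charpoly, B.charpoly, ⟨A, hA, rfl⟩, ⟨?_, Matrix.charpoly_monic B⟩, hc.symm⟩
    rw [Matrix.charpoly_natDegree_eq_dim]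
    simp
  · intro h f hf hd
    have hd' : f.natDegree = 6 + 2 * k := hd.trans (card_T k)
    obtain ⟨g, h', hg, hh, e⟩ := h f ⟨hd', hf⟩
    obtain ⟨A, hA, hAc⟩ := hg
    obtain ⟨B, hB, hBc⟩ := real_blk hh
    refine ⟨Matrix.fromBlocks A 0 0 B, real_dsum hA hB, ?_⟩
    rw [Matrix.charpoly_fromBlocks_zero₁₂, hAc, hBc, e]

theorem hasFac_seven : HasFac 7 := by
  intro f hf
  have e : 6 + 2 * 7 = 20 := by norm_num
  rw [e] at hf
  obtain ⟨g, h, hg, hh, e'⟩ := exists_factor hf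
  exact ⟨g, h, hg, by norm_num; exact hh, e'⟩

/-- The general matrix with pattern `z6`. -/
def M6 (a b p q r s x₁ x₂ x₃ x₄ x₅ : ℝ) : Matrix (Fin 6) (Fin 6) ℝ :=
  !![0, 0, 0, s, q, p;
     x₁, a, 0, r, 0, 0;
     0, 0, 0, 0, x₂, 0;
     0, 0, x₃, 0, 0, 0;
     0, x₄, 0, 0, 0, 0;
     x₅, 0, 0, 0, 0, b]

theorem M6_charpoly (a b p q r s x₁ x₂ x₃ x₄ x₅ : ℝ) :
    (M6 a b p q r s x₁ x₂ x₃ x₄ x₅).charpoly =
    X ^ 6 - C (a + b) * X ^ 5 + C (a * b - p * x₅) * X ^ 4 -
      C (q * (x₄ * x₁) - p * x₅ * a) * X ^ 3 +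
      C (q * (x₄ * x₁) * b - r * (x₂ * x₃ * x₄)) * X ^ 2 -
      C (s * (x₁ * x₂ * x₃ * x₄) - r * (x₂ * x₃ * x₄) * b) * X +
      C (s * (x₁ * x₂ * x₃ * x₄) * b + r * (x₂ * x₃ * x₄) * (p * x₅)) := by
  have h1 : charmatrix (M6 a b p q r s x₁ x₂ x₃ x₄ x₅) =
      !![X, 0, 0, -C s, -C q, -C p;
         -C x₁, X - C a, 0, -C r, 0, 0;
         0, 0, X, 0, -C x₂, 0;
         0, 0, -C x₃, X, 0, 0;
         0, -C x₄, 0, 0, X, 0;
         -C x₅, 0, 0, 0, 0, X - C b] := by
    ext i j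
    fin_cases i <;> fin_cases j <;> simp [charmatrix, M6]
  rw [Matrix.charpoly, h1]
  simp [Matrix.det_succ_row_zero, Fin.sum_univ_succ, Fin.succAbove]
  ring

theorem real6_solv {g : ℝ[X]} (hg : Real6 g) : ∃ E₁ E₂ E₃ E₄ E₅ E₆ : ℝ,
    Solv E₁ E₂ E₃ E₄ E₅ E₆ ∧ g = X ^ 6 - C E₁ * X ^ 5 + C E₂ * X ^ 4 - C E₃ * X ^ 3 +
      C E₄ * X ^ 2 - C E₅ * X + C E₆ := by
  obtain ⟨A, hA, rfl⟩ := hg
  have hz : ∀ i j, z6 i j = false → A i j = 0 := by
    intro i j h
    by_contra hne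
    rw [(hA i j).1 hne] at h
    exact Bool.noConfusion h
  have hn : ∀ i j, z6 i j = true → A i j ≠ 0 := fun i j h => (hA i j).2 h
  have e : A = M6 (A 1 1) (A 5 5) (A 0 5) (A 0 4) (A 1 3) (A 0 3) (A 1 0) (A 2 4) (A 3 2) (A 4 1)
      (A 5 0) := by
    ext i j
    fin_cases i <;> fin_cases j <;> first | rfl | exact hz _ _ (by decide)
  have h11 := hn 1 1 (by decide)
  have h55 := hn 5 5 (by decide)
  have h05 := hn 0 5 (by decide)
  have h04 := hn 0 4 (by decide)
  have h13 := hn 1 3 (by decide)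
  have h03 := hn 0 3 (by decide)
  have h10 := hn 1 0 (by decide)
  have h24 := hn 2 4 (by decide)
  have h32 := hn 3 2 (by decide)
  have h41 := hn 4 1 (by decide)
  have h50 := hn 5 0 (by decide)
  generalize A 1 1 = a at *
  generalize A 5 5 = b at *
  generalize A 0 5 = p at *
  generalize A 0 4 = q at *
  generalize A 1 3 = r at *
  generalize A 0 3 = s at *
  generalize A 1 0 = x₁ at *
  generalize A 2 4 = x₂ at *
  generalize A 3 2 = x₃ at *
  generalize A 4 1 = x₄ at *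
  generalize A 5 0 = x₅ at *
  refine ⟨_, _, _, _, _, _, ⟨a, b, p * x₅, q * (x₄ * x₁), r * (x₂ * x₃ * x₄),
    s * (x₁ * x₂ * x₃ * x₄), h11, h55, ?_, ?_, ?_, ?_, rfl, rfl, rfl, rfl, rfl, rfl⟩, ?_⟩
  · positivity
  · positivity
  · positivity
  · positivity
  · rw [e, M6_charpoly]

/-- `X⁴ (X² + 1) (X² + 2)` has no factor of degree six realized by `z6`. -/
theorem not_hasFac_one : ¬ HasFac 1 := by
  intro H
  have hf : IsMonicOfDegree (X ^ 4 * quad 0 1 * quad 0 2 : ℝ[X]) (6 + 2 * 1) := by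
    have h4 : IsMonicOfDegree (X ^ 4 : ℝ[X]) 4 := ⟨by simp, monic_X_pow 4⟩
    exact (h4.mul (quad_monic 0 1)).mul (quad_monic 0 2)
  obtain ⟨g, h, hg, hh, e⟩ := H _ hf
  obtain ⟨u, v, rfl⟩ := exists_quad (show IsMonicOfDegree h 2 from hh)
  obtain ⟨E₁, E₂, E₃, E₄, E₅, E₆, hS, rfl⟩ := real6_solv hg
  have key : C (-u - E₁) * X ^ 7 + C (v + u * E₁ + E₂ - 3) * X ^ 6 +
      C (-(v * E₁) - u * E₂ - E₃) * X ^ 5 + C (v * E₂ + u * E₃ + E₄ - 2) * X ^ 4 +
      C (-(v * E₃) - u * E₄ - E₅) * X ^ 3 + C (v * E₄ + u * E₅ + E₆) * X ^ 2 +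
      C (-(v * E₅) - u * E₆) * X + C (v * E₆) = (0 : ℝ[X]) := by
    have h3 : (C (3 : ℝ) : ℝ[X]) = 3 := rfl
    have h2 : (C (2 : ℝ) : ℝ[X]) = 2 := rfl
    simp only [quad, map_zero, map_one, h2] at e
    simp only [map_add, map_sub, map_mul, map_neg, h3, h2]
    linear_combination -e
  have c7 := congrArg (fun p : ℝ[X] => p.coeff 7) key
  have c6 := congrArg (fun p : ℝ[X] => p.coeff 6) key
  have c5 := congrArg (fun p : ℝ[X] => p.coeff 5) key
  have c4 := congrArg (fun p : ℝ[X] => p.coeff 4) key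
  have c3 := congrArg (fun p : ℝ[X] => p.coeff 3) key
  have c2 := congrArg (fun p : ℝ[X] => p.coeff 2) key
  have c1 := congrArg (fun p : ℝ[X] => p.coeff 1) key
  have c0 := congrArg (fun p : ℝ[X] => p.coeff 0) key
  simp only [coeff_add, coeff_C_mul, coeff_X_pow, coeff_X, coeff_C, coeff_zero] at c7 c6 c5 c4 c3 c2 c1 c0
  norm_num at c7 c6 c5 c4 c3 c2 c1 c0
  -- the factor of degree six has the form `X⁶ + E₂ X⁴ + E₄ X²` with `E₂ ≠ 0`
  have claim : E₁ = 0 ∧ E₅ = 0 ∧ E₆ = 0 ∧ E₂ ≠ 0 := by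
    have hE1 : E₁ = -u := by linarith
    subst hE1
    rcases eq_or_ne v 0 with rfl | hv
    · have hu : u = 0 := by
        by_contra hu
        have h6 : E₆ = 0 := by
          have : u * E₆ = 0 := by linarith
          exact (mul_eq_zero.1 this).resolve_left hu
        have h5 : E₅ = 0 := by
          have : u * E₅ = 0 := by linarith
          exact (mul_eq_zero.1 this).resolve_left hu
        have h4 : E₄ = 0 := by
          have : u * E₄ = 0 := by linarith
          exact (mul_eq_zero.1 this).resolve_left hu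
        have h2 : E₂ = 3 + u ^ 2 := by linarith
        have h3 : E₃ = -u * E₂ := by linarith
        rw [h3, h2, h4] at c4
        nlinarith [sq_nonneg u, sq_nonneg (u ^ 2)]
      subst hu
      refine ⟨by simp, by linarith, by linarith, ?_⟩
      have : E₂ = 3 := by linarith
      rw [this]
      norm_num
    · have h6 : E₆ = 0 := c0.resolve_left hv
      have h5 : E₅ = 0 := by
        rw [h6] at c1
        have : v * E₅ = 0 := by linarith
        exact (mul_eq_zero.1 this).resolve_left hv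
      have h4 : E₄ = 0 := by
        rw [h6, h5] at c2
        have : v * E₄ = 0 := by linarith
        exact (mul_eq_zero.1 this).resolve_left hv
      have h3 : E₃ = 0 := by
        rw [h5, h4] at c3
        have : v * E₃ = 0 := by linarith
        exact (mul_eq_zero.1 this).resolve_left hv
      rw [h3, h4] at c4
      rw [h3] at c5
      have hvE : v * E₂ = 2 := by linarith
      have hE2 : E₂ ≠ 0 := by
        rintro rfl
        norm_num at hvE
      have hu : u = 0 := by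
        by_contra hu
        have h7 : u * (v - E₂) = 0 := by linarith
        have h8 : v = E₂ := by
          have := (mul_eq_zero.1 h7).resolve_left hu
          linarith
        rw [← h8] at hvE c6
        nlinarith [sq_nonneg u, sq_nonneg (v - 1)]
      subst hu
      exact ⟨by simp, h5, h6, hE2⟩
  obtain ⟨rfl, rfl, rfl, hE2⟩ := claim
  obtain ⟨a, b, p, q, r, s, ha, hb, hp, hq, hr, hs, e1, e2, e3, e4, e5, e6⟩ := hS
  have hab : a = -b := by linarith
  subst hab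
  have hsr : s = r * b := by linarith
  subst hsr
  have hp2 : p = -b * b - E₂ := by linarith
  rw [hp2] at e6
  have : r * E₂ = 0 := by nlinarith
  rcases mul_eq_zero.1 this with h | h
  · exact hr h
  · exact hE2 h

theorem split_monic {m n : ℕ} {f : ℝ[X]} (hf : IsMonicOfDegree f (2 * (m + n))) :
    ∃ g h : ℝ[X], IsMonicOfDegree g (2 * m) ∧ IsMonicOfDegree h (2 * n) ∧ f = g * h := by
  induction m generalizing f with
  | zero =>
    refine ⟨1, f, ?_, ?_, by rw [one_mul]⟩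
    · rw [mul_zero, isMonicOfDegree_zero_iff]
    · rwa [zero_add] at hf
  | succ m ih =>
    have e : 2 * (m + 1 + n) = 2 * (m + n) + 2 := by ring
    rw [e] at hf
    obtain ⟨f₁, f₂, h1, h2, rfl⟩ := hf.eq_isMonicOfDegree_two_mul_isMonicOfDegree
    obtain ⟨g, h, hg, hh, rfl⟩ := ih h2
    refine ⟨f₁ * g, h, ?_, hh, by rw [mul_assoc]⟩
    have := h1.mul hg
    have e2 : 2 * (m + 1) = 2 + 2 * m := by ring
    rw [e2]
    exact this

/-- If every monic polynomial of degree `8 + 2 * k` has a factor realized by `z6`, `k ≥ 1`, then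
every monic polynomial of degree `12 + 4 * k` has two disjoint such factors. -/
theorem two_factors {k : ℕ} (hk : 1 ≤ k) (H : HasFac (k + 1)) {f : ℝ[X]}
    (hf : IsMonicOfDegree f (12 + 4 * k)) :
    ∃ g₁ g₂ h₁ h₂ : ℝ[X], Real6 g₁ ∧ Real6 g₂ ∧ IsMonicOfDegree h₁ (2 * k) ∧
      IsMonicOfDegree h₂ (2 * k) ∧ f = g₁ * h₁ * (g₂ * h₂) := by
  obtain ⟨l, rfl⟩ : ∃ l, k = l + 1 := ⟨k - 1, by omega⟩
  have e1 : 12 + 4 * (l + 1) = 2 * ((l + 5) + (l + 3)) := by ring
  rw [e1] at hf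
  obtain ⟨f₁, f₂, hf1, hf2, rfl⟩ := split_monic hf
  have e2 : 2 * (l + 5) = 6 + 2 * (l + 1 + 1) := by ring
  rw [e2] at hf1
  obtain ⟨g₁, h₁, hg1, hh1, rfl⟩ := H f₁ hf1
  have h3 := hh1.mul hf2
  have e3 : 2 * (l + 1 + 1) + 2 * (l + 3) = 2 * ((l + 5) + l) := by ring
  rw [e3] at h3
  obtain ⟨f₃, f₄, hf3, hf4, e4⟩ := split_monic h3
  rw [e2] at hf3
  obtain ⟨g₂, h₂, hg2, hh2, rfl⟩ := H f₃ hf3
  have h5 := hh2.mul hf4
  have e5 : 2 * (l + 1 + 1) + 2 * l = 2 * ((l + 1) + (l + 1)) := by ring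
  rw [e5] at h5
  obtain ⟨h₃, h₄, hh3, hh4, e6⟩ := split_monic h5
  refine ⟨g₁, g₂, h₃, h₄, hg1, hg2, hh3, hh4, ?_⟩
  calc g₁ * h₁ * f₂ = g₁ * (h₁ * f₂) := by ring
    _ = g₁ * g₂ * (h₂ * f₄) := by rw [e4]; ring
    _ = g₁ * h₃ * (g₂ * h₄) := by rw [e6]; ring

theorem specArb_dsum {k : ℕ} (hk : 1 ≤ k) (H : HasFac (k + 1)) : SpecArb (dsum (T k) (T k)) := by
  intro f hf hd
  have hd' : f.natDegree = 12 + 4 * k := by
    rw [hd, Fintype.card_sum, card_T]
    ring
  obtain ⟨g₁, g₂, h₁, h₂, hg1, hg2, hh1, hh2, rfl⟩ := two_factors hk H ⟨hd', hf⟩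
  obtain ⟨A₁, hA1, hc1⟩ := hg1
  obtain ⟨A₂, hA2, hc2⟩ := hg2
  obtain ⟨B₁, hB1, hb1⟩ := real_blk hh1
  obtain ⟨B₂, hB2, hb2⟩ := real_blk hh2
  refine ⟨_, real_dsum (real_dsum hA1 hB1) (real_dsum hA2 hB2), ?_⟩
  rw [Matrix.charpoly_fromBlocks_zero₁₂, Matrix.charpoly_fromBlocks_zero₁₂,
    Matrix.charpoly_fromBlocks_zero₁₂, hc1, hc2, hb1, hb2]

/-- There are a positive integer `n` and a zero-nonzero pattern `P` of order `n` such that `P` is
not spectrally arbitrary, but the direct sum of `P` and `P` is spectrally arbitrary. -/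
theorem result : ∃ (n : ℕ) (P : Matrix (Fin n) (Fin n) Bool), 0 < n ∧
    ¬ SpecArb P ∧ SpecArb (dsum P P) := by
  classical
  obtain ⟨k, hk, hk0, hk1⟩ : ∃ k, 1 ≤ k ∧ ¬ HasFac k ∧ HasFac (k + 1) := by
    by_contra hcon
    push Not at hcon
    have : ∀ j, ¬ HasFac (j + 1) := by
      intro j
      induction j with
      | zero => exact not_hasFac_one
      | succ j ih => exact hcon (j + 1) (by omega) ih
    exact this 6 hasFac_seven
  have e : Fin (6 + 2 * k) ≃ (Fin 6 ⊕ (Fin 2 × Fin k)) :=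
    (Fintype.equivFinOfCardEq (card_T k)).symm
  refine ⟨6 + 2 * k, (T k).submatrix e e, by omega, ?_, ?_⟩
  · rw [specArb_submatrix, specArb_T]
    exact hk0
  · have h : dsum ((T k).submatrix e e) ((T k).submatrix e e) =
        (dsum (T k) (T k)).submatrix (Equiv.sumCongr e e) (Equiv.sumCongr e e) := by
      ext i j
      rcases i with i | i <;> rcases j with j | j <;> rfl
    rw [h, specArb_submatrix]
    exact specArb_dsum hk hk1

end Pool.Agent.Results.MP_1020fe_co.SumWithItself
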